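import Mathlib
import Pool.Agent.H594.KP.Units

set_option autoImplicit false
set_option linter.unusedSectionVars false

/-!
# Units at all conjugates of an algebraic number
-/

namespace Pool.Agent.H594.BD

open Finset IsDedekindDomain NumberField
open Pool.Agent.H594.ML Pool.Agent.H594.KP
open Pool.Agent.Helper259.AbsHt Pool.Agent.Y215.SK Pool.Agent.Y215.AF

/-- the valuations of a number field extend to the algebraic numbers -/
theorem exists_ext {L : IntermediateField ℚ Qbar} [NumberField L] (v : HeightOneSpectrum (𝓞 L)) :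
    ∃ w : ValuationSubring Qbar, ∀ x : L,
      (v.valuation L x ≤ 1 → w.valuation (x : Qbar) ≤ 1) ∧
      (v.valuation L x < 1 → w.valuation (x : Qbar) < 1) := by
  let A : Subring Qbar := (v.valuation L).valuationSubring.toSubring.map (algebraMap L Qbar)
  have hA : ∀ x : L, v.valuation L x ≤ 1 → (x : Qbar) ∈ A := fun x hx =>
    ⟨x, hx, rfl⟩
  let I : Ideal A :=
    { carrier := {a | ∃ x : L, v.valuation L x < 1 ∧ (x : Qbar) = a}
      add_mem' := by
        rintro a b ⟨x, hx, hxa⟩ ⟨y, hy, hyb⟩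
        exact ⟨x + y, (v.valuation L).map_add_lt hx hy, by
          rw [Subring.coe_add, ← hxa, ← hyb]; rfl⟩
      zero_mem' := ⟨0, by rw [map_zero]; exact zero_lt_one, rfl⟩
      smul_mem' := by
        rintro ⟨c, y, hy, rfl⟩ b ⟨x, hx, hxb⟩
        refine ⟨y * x, ?_, ?_⟩
        · rw [map_mul]
          exact (mul_le_mul_left hy _).trans_lt (by rwa [one_mul])
        · rw [smul_eq_mul, Subring.coe_mul, ← hxb]
          rfl }
  have hI : I ≠ ⊤ := by
    rw [Ne, Ideal.eq_top_iff_one]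
    rintro ⟨x, hx, hx1⟩
    have h1 : x = 1 := Subtype.ext hx1
    rw [h1, map_one] at hx
    exact lt_irrefl _ hx
  obtain ⟨B, hB1, hB2⟩ := Ideal.image_subset_nonunits_valuationSubring I hI
  refine ⟨B, fun x => ⟨fun hx => ?_, fun hx => ?_⟩⟩
  · rw [ValuationSubring.valuation_le_one_iff]
    exact hB1 (hA x hx)
  · rw [← ValuationSubring.mem_nonunits_iff]
    exact hB2 ⟨⟨(x : Qbar), hA x hx.le⟩, ⟨x, hx, rfl⟩, rfl⟩

instance algQ (L : IntermediateField ℚ Qbar) : Algebra.IsAlgebraic L Qbar := by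
  have : Algebra.IsAlgebraic ℚ Qbar := AlgebraicClosure.isAlgebraic ℚ
  exact Algebra.IsAlgebraic.tower_top (K := ℚ) L

instance normQ (L : IntermediateField ℚ Qbar) : Normal L Qbar := by
  have : IsAlgClosure L Qbar := ⟨inferInstance, inferInstance⟩
  exact IsAlgClosure.normal L Qbar

theorem zpow_eq_one_g {G : Type*} [LinearOrderedCommGroupWithZero G] {x : G} {n : ℤ} (hn : n ≠ 0)
    (h : x ^ n = 1) : x = 1 := by
  rcases lt_or_gt_of_ne hn with hneg | hpos
  · obtain ⟨m, hm⟩ : ∃ m : ℕ, n = -(m : ℤ) := ⟨(-n).toNat, by omega⟩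
    rw [hm, zpow_neg, zpow_natCast, inv_eq_one] at h
    rcases pow_eq_one_iff.1 h with h3 | h3
    · exact h3
    · omega
  · obtain ⟨m, hm⟩ : ∃ m : ℕ, n = (m : ℤ) := ⟨n.toNat, by omega⟩
    rw [hm, zpow_natCast] at h
    rcases pow_eq_one_iff.1 h with h3 | h3
    · exact h3
    · omega

/-- the local analysis -/
theorem local_gen {G : Type*} [LinearOrderedCommGroupWithZero G] (w : Valuation Qbar G)
    (R : Finset Qbar) (s : Qbar) (hR : ∀ a ∈ R, w a ≤ 1)
    (hdiff : ∀ a ∈ R, ∀ b ∈ R, a ≠ b → w (a - b) = 1) (μ : Qbar → ℤ)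
    (hprod : w (∏ a ∈ R, (s - a) ^ μ a) = 1) :
    (w s ≤ 1 ∧ ∀ a ∈ R, μ a ≠ 0 → w (s - a) = 1) ∨
      (1 < w s ∧ (∀ a ∈ R, w (s - a) = w s) ∧ ∑ a ∈ R, μ a = 0) := by
  classical
  rcases le_or_gt (w s) 1 with h1 | h1
  · refine Or.inl ⟨h1, fun a ha hμ => ?_⟩
    have hle : ∀ b ∈ R, w (s - b) ≤ 1 := fun b hb =>
      (w.map_sub s b).trans (max_le h1 (hR b hb))
    refine le_antisymm (hle a ha) (not_lt.1 fun hlt => ?_)
    have hother : ∀ b ∈ R, b ≠ a → w (s - b) = 1 := by
      intro b hb hba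
      have e : s - b = (s - a) + (a - b) := by ring
      rw [e, w.map_add_eq_of_lt_right (by rw [hdiff a ha b hb hba.symm]; exact hlt),
        hdiff a ha b hb hba.symm]
    rw [map_prod, Finset.prod_eq_single a] at hprod
    · rw [map_zpow₀] at hprod
      exact hlt.ne (zpow_eq_one_g hμ hprod)
    · intro b hb hba
      rw [map_zpow₀, hother b hb hba, one_zpow]
    · intro h
      exact absurd ha h
  · have h2 : ∀ a ∈ R, w (s - a) = w s := fun a ha =>
      Valuation.map_sub_eq_of_lt_left _ ((hR a ha).trans_lt h1)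
    refine Or.inr ⟨h1, h2, ?_⟩
    by_contra hne
    rw [map_prod, Finset.prod_congr rfl fun a ha => by rw [map_zpow₀, h2 a ha]] at hprod
    rw [← zpow_sum_g (by
      intro h0
      rw [h0] at h1
      exact not_lt_zero h1)] at hprod
    exact h1.ne' (zpow_eq_one_g hne hprod)

/-- the monic polynomial over the algebraic numbers whose roots are the conjugates -/
noncomputable def mp (L : IntermediateField ℚ Qbar) (s : Qbar) : Polynomial Qbar :=
  (minpoly L s).map (algebraMap L Qbar)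

theorem mp_monic (L : IntermediateField ℚ Qbar) (s : Qbar) : (mp L s).Monic :=
  (minpoly.monic (Algebra.IsIntegral.isIntegral s)).map _

theorem mp_root (L : IntermediateField ℚ Qbar) (s : Qbar) : (mp L s).eval s = 0 := by
  unfold mp
  rw [Polynomial.eval_map_algebraMap, minpoly.aeval]

/-- **The values of the minimal polynomials are units.** -/
theorem conj_units (Γ : Subgroup Qbarˣ) (hΓ : Γ.FG) (K : IntermediateField ℚ Qbar)
    [FiniteDimensional ℚ K] (R : Finset Qbar) :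
    ∃ (L : IntermediateField ℚ Qbar) (Γ' : Subgroup Qbarˣ), K ≤ L ∧ Γ'.FG ∧
      ∀ s : Qbar, (∀ a ∈ R, s ≠ a) →
      ∀ (μ : Qbar → ℤ), ∀ u ∈ DivHull Γ, ∏ a ∈ R, (s - a) ^ μ a = (u : Qbar) →
      (∑ a ∈ R, μ a ≠ 0 → ∀ a ∈ R, μ a ≠ 0 → ∃ w ∈ Γ', (mp L s).eval a = ((w : Qbarˣ) : Qbar)) ∧
      ∀ a ∈ R, ∀ b ∈ R, μ a ≠ 0 → μ b ≠ 0 →
        ∃ w ∈ Γ', (mp L s).eval a / (mp L s).eval b = ((w : Qbarˣ) : Qbar) := by
  classical
  obtain ⟨g, hg⟩ := hΓ
  obtain ⟨L, hL, hKL, hXL, -⟩ := exists_field K (R ∪ g.image (fun u : Qbarˣ => (u : Qbar))) ∅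
  have hRL : ∀ a ∈ R, a ∈ L := fun a ha => hXL a (Finset.mem_union_left _ ha)
  have hgL : ∀ u ∈ g, ((u : Qbarˣ) : Qbar) ∈ L := fun u hu =>
    hXL _ (Finset.mem_union_right _ (Finset.mem_image_of_mem _ hu))
  obtain ⟨S1, hS1, hu1⟩ := hull_unit L g hgL
  let R' : Finset L := R.attach.image fun a => ⟨a.1, hRL a.1 a.2⟩
  obtain ⟨S2, hS2, hu2⟩ := good_set (L := L) (R' ∪ (R' ×ˢ R').image fun z => z.1 - z.2)
  have hR'mem : ∀ a (ha : a ∈ R), (⟨a, hRL a ha⟩ : L) ∈ R' := fun a ha =>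
    Finset.mem_image.2 ⟨⟨a, ha⟩, Finset.mem_attach _ _, rfl⟩
  have hSfin := hS1.union hS2
  refine ⟨L, SU (algebraMap L Qbar) (S1 ∪ S2), hKL, SU_fg _ _ hSfin, fun s hsR μ u hu he => ?_⟩
  -- the values of the minimal polynomial at the elements of the field
  let f : L → L := fun a => (minpoly L s).eval a
  have hf : ∀ a (ha : a ∈ L), (mp L s).eval a = ((f ⟨a, ha⟩ : L) : Qbar) := fun a ha =>
    eval_lift L (minpoly L s) ⟨a, ha⟩
  have hroots : ∀ z ∈ (mp L s).roots, ∃ σ : Qbar ≃ₐ[L] Qbar, σ s = z := by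
    intro z hz
    have h1 : (mp L s).eval z = 0 := (Polynomial.mem_roots (mp_monic L s).ne_zero).1 hz
    refine minpoly.exists_algEquiv_of_root' (Algebra.IsAlgebraic.isAlgebraic s) ?_
    rw [← h1]
    unfold mp
    rw [Polynomial.eval_map_algebraMap]
  have hval : ∀ a, (mp L s).eval a = ((mp L s).roots.map fun z => a - z).prod := fun a =>
    (IsAlgClosed.splits (mp L s)).eval_eq_prod_roots_of_monic (mp_monic L s) a
  have hne : ∀ a ∈ R, (mp L s).eval a ≠ 0 := by
    intro a ha h0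
    obtain ⟨σ, hσ⟩ := hroots a ((Polynomial.mem_roots (mp_monic L s).ne_zero).2 h0)
    apply hsR a ha
    have h1 : σ a = a := σ.commutes ⟨a, hRL a ha⟩
    exact σ.injective (hσ.trans h1.symm)
  -- the local analysis
  have hloc : ∀ v ∉ S1 ∪ S2, ∃ w : ValuationSubring Qbar,
      (∀ x : L, (v.valuation L x ≤ 1 → w.valuation (x : Qbar) ≤ 1) ∧
        (v.valuation L x < 1 → w.valuation (x : Qbar) < 1)) ∧
      ∀ z ∈ (mp L s).roots, (w.valuation z ≤ 1 ∧ ∀ a ∈ R, μ a ≠ 0 → w.valuation (z - a) = 1) ∨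
        (1 < w.valuation z ∧ (∀ a ∈ R, w.valuation (z - a) = w.valuation z) ∧
          ∑ a ∈ R, μ a = 0) := by
    intro v hv
    obtain ⟨w, hw⟩ := exists_ext v
    have hw1 : ∀ x : L, x ≠ 0 → v.valuation L x = 1 → w.valuation (x : Qbar) = 1 := by
      intro x hx0 hx
      refine le_antisymm ((hw x).1 hx.le) ?_
      have h1 := (hw x⁻¹).1 (by rw [map_inv₀, hx, inv_one])
      have h2 : ((x⁻¹ : L) : Qbar) = ((x : L) : Qbar)⁻¹ := rfl
      rw [h2, map_inv₀] at h1
      have h3 : w.valuation (x : Qbar) ≠ 0 := by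
        rw [Ne, map_eq_zero]
        intro h0
        exact hx0 (Subtype.ext h0)
      exact (inv_le_one₀ (zero_lt_iff.2 h3)).1 h1
    have hv1 : v ∉ S1 := fun h => hv (Or.inl h)
    have hv2 : v ∉ S2 := fun h => hv (Or.inr h)
    refine ⟨w, hw, fun z hz => ?_⟩
    obtain ⟨σ, hσ⟩ := hroots z hz
    refine local_gen w.valuation R z (fun a ha => ?_) (fun a ha b hb hab => ?_) μ ?_
    · exact (hw ⟨a, hRL a ha⟩).1 (val_le_one_of (hu2 v hv2 _ (Finset.mem_union_left _
        (hR'mem a ha))))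
    · have h1 : (⟨a, hRL a ha⟩ : L) - ⟨b, hRL b hb⟩ ≠ 0 := fun h =>
        hab (sub_eq_zero.1 (congrArg Subtype.val h))
      exact hw1 _ h1 (hu2 v hv2 _ (Finset.mem_union_right _ (Finset.mem_image.2
        ⟨(_, _), Finset.mk_mem_product (hR'mem a ha) (hR'mem b hb), rfl⟩)) h1)
    · have h1 : ∏ a ∈ R, (z - a) ^ μ a = σ (u : Qbar) := by
        rw [← he, map_prod]
        refine Finset.prod_congr rfl fun a ha => ?_
        rw [map_zpow₀, map_sub, hσ]
        have h2 : σ a = a := σ.commutes ⟨a, hRL a ha⟩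
        rw [h2]
      rw [h1]
      obtain ⟨m, hm, hum⟩ := hu
      -- the element of the group
      have hΓL : ((u ^ m : Qbarˣ) : Qbar) ∈ L := by
        let U : Subgroup Qbarˣ :=
          { carrier := {u | ((u : Qbarˣ) : Qbar) ∈ L}
            mul_mem' := fun {a b} ha hb => by
              show ((a * b : Qbarˣ) : Qbar) ∈ L
              rw [Units.val_mul]
              exact L.mul_mem ha hb
            one_mem' := L.one_mem
            inv_mem' := fun {a} ha => by
              show ((a⁻¹ : Qbarˣ) : Qbar) ∈ L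
              rw [Units.val_inv_eq_inv_val]
              exact L.inv_mem ha }
        have h2 : Subgroup.closure (g : Set Qbarˣ) ≤ U := by
          rw [Subgroup.closure_le]
          exact hgL
        rw [← hg] at hum
        exact h2 hum
      have h3 : v.valuation L ⟨_, hΓL⟩ = 1 := by
        refine hu1 v hv1 _ ⟨u ^ m, ⟨1, one_pos, ?_⟩, rfl⟩
        rw [pow_one, hg]
        exact hum
      have h4 := hw1 ⟨_, hΓL⟩ (fun h => (u ^ m).ne_zero (congrArg Subtype.val h)) h3
      have h5 : σ (u : Qbar) ^ m = ((u ^ m : Qbarˣ) : Qbar) := by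
        rw [← map_pow, ← Units.val_pow_eq_pow_val]
        exact σ.commutes ⟨_, hΓL⟩
      have h6 : w.valuation (σ (u : Qbar)) ^ m = 1 := by
        rw [← map_pow, h5]
        exact h4
      exact (pow_eq_one_iff.1 h6).resolve_right hm.ne'
  have hunit : ∀ (x : L), x ≠ 0 →
      (∀ v ∉ S1 ∪ S2, ∃ w : ValuationSubring Qbar,
        (∀ x : L, (v.valuation L x ≤ 1 → w.valuation (x : Qbar) ≤ 1) ∧
        (v.valuation L x < 1 → w.valuation (x : Qbar) < 1)) ∧ w.valuation (x : Qbar) = 1) →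
      ∃ w' ∈ SU (algebraMap L Qbar) (S1 ∪ S2), (x : Qbar) = ((w' : Qbarˣ) : Qbar) := by
    intro x hx0 hv
    let w0 : Lˣ := Units.mk0 x hx0
    refine ⟨Units.map ((algebraMap L Qbar : L →+* Qbar) : L →* Qbar) w0,
      Subgroup.mem_map_of_mem _ (fun v hv' => ?_), rfl⟩
    obtain ⟨w, hw, hwx⟩ := hv v hv'
    show v.valuation L x = 1
    refine le_antisymm (not_lt.1 fun h => ?_) (not_lt.1 fun h => ?_)
    · have h1 : v.valuation L x⁻¹ < 1 := by
        rw [map_inv₀]
        exact inv_lt_one_of_one_lt₀ h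
      have h2 := (hw x⁻¹).2 h1
      have h3 : ((x⁻¹ : L) : Qbar) = ((x : L) : Qbar)⁻¹ := rfl
      rw [h3, map_inv₀, hwx, inv_one] at h2
      exact lt_irrefl _ h2
    · have h2 := (hw x).2 h
      rw [hwx] at h2
      exact lt_irrefl _ h2
  refine ⟨fun hμ a ha hμa => ?_, fun a ha b hb hμa hμb => ?_⟩
  · rw [hf a (hRL a ha)]
    refine hunit _ (fun h => hne a ha ?_) fun v hv => ?_
    · rw [hf a (hRL a ha), h]
      rfl
    · obtain ⟨w, hw, hz⟩ := hloc v hv
      refine ⟨w, hw, ?_⟩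
      rw [← hf a (hRL a ha), hval, map_multiset_prod, Multiset.map_map]
      refine Multiset.prod_eq_one fun y hy => ?_
      obtain ⟨z, hz1, rfl⟩ := Multiset.mem_map.1 hy
      rcases hz z hz1 with ⟨-, h⟩ | ⟨-, -, h⟩
      · show w.valuation (a - z) = 1
        rw [Valuation.map_sub_swap]
        exact h a ha hμa
      · exact absurd h hμ
  · have e : (mp L s).eval a / (mp L s).eval b =
        ((f ⟨a, hRL a ha⟩ / f ⟨b, hRL b hb⟩ : L) : Qbar) := by
      rw [hf a (hRL a ha), hf b (hRL b hb)]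
      rfl
    rw [e]
    refine hunit _ (fun h => div_ne_zero (hne a ha) (hne b hb) ?_) fun v hv => ?_
    · rw [e, h]
      rfl
    · obtain ⟨w, hw, hz⟩ := hloc v hv
      refine ⟨w, hw, ?_⟩
      rw [← e, map_div₀]
      have h1 : w.valuation ((mp L s).eval a) = w.valuation ((mp L s).eval b) := by
        rw [hval, hval, map_multiset_prod, map_multiset_prod, Multiset.map_map, Multiset.map_map]
        congr 1
        refine Multiset.map_congr rfl fun z hz1 => ?_
        show w.valuation (a - z) = w.valuation (b - z)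
        rw [Valuation.map_sub_swap, Valuation.map_sub_swap _ b z]
        rcases hz z hz1 with ⟨-, h⟩ | ⟨-, h, -⟩
        · rw [h a ha hμa, h b hb hμb]
        · rw [h a ha, h b hb]
      rw [h1, div_self]
      rw [Ne, map_eq_zero]
      exact hne b hb

end Pool.Agent.H594.BD
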