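import Mathlib
import Pool.Agent.H594.KP.Units
import Pool.Agent.H594.ML.UnitEq

set_option autoImplicit false
set_option linter.unusedSectionVars false

/-!
# Units which satisfy the linear relations of points in general position
-/

namespace Pool.Agent.H594.BD

open Finset
open Pool.Agent.H594.ML
open Pool.Agent.Helper259.AbsHt Pool.Agent.Y215.SK Pool.Agent.Y215.AF

/-- the unit equation -/
theorem unitQ (Γ : Subgroup Qbarˣ) (hΓ : Γ.FG) (ι : Type) [Fintype ι] :
    {x : ι → Qbar | (∀ i, ∃ u ∈ DivHull Γ, x i = ((u : Qbarˣ) : Qbar)) ∧ ∑ i, x i = 1 ∧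
      ∀ I : Finset ι, I.Nonempty → ∑ i ∈ I, x i ≠ 0}.Finite := by
  classical
  have e := Fintype.equivFin ι
  refine ((unit_eq Γ hΓ (Fintype.card ι)).image (fun x i => x (e i))).subset ?_
  rintro x ⟨hx, hsum, hsub⟩
  refine ⟨fun i => x (e.symm i), ⟨fun i => hx _, ?_, fun I hI h0 => ?_⟩, ?_⟩
  · rw [← hsum]
    exact Equiv.sum_comp e.symm x
  · apply hsub (I.map e.symm.toEmbedding) (hI.map)
    rw [Finset.sum_map]
    exact h0
  · funext i
    show x (e.symm (e i)) = x i
    rw [Equiv.symm_apply_apply]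

theorem const_of_finite {α β : Type*} (U : Ultrafilter α) (f : α → β) (S : Set β) (hS : S.Finite)
    (h : ∀ᶠ y in (U : Filter α), f y ∈ S) : ∃ b ∈ S, ∀ᶠ y in (U : Filter α), f y = b := by
  have h1 : (⋃ b ∈ S, f ⁻¹' {b}) ∈ U := by
    filter_upwards [h] with y hy
    exact Set.mem_biUnion hy rfl
  obtain ⟨b, hb, hb2⟩ := (Ultrafilter.finite_biUnion_mem_iff hS).1 h1
  exact ⟨b, hb, hb2⟩

/-- a minimal part with the same sum -/
theorem exists_minimal {ι : Type} [DecidableEq ι] (I : Finset ι) (f : ι → Qbar)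
    (h : ∑ k ∈ I, f k = 1) : ∃ J ⊆ I, ∑ k ∈ J, f k = 1 ∧
      ∀ J' ⊆ J, J'.Nonempty → ∑ k ∈ J', f k ≠ 0 := by
  classical
  obtain ⟨J, hJ, hmin⟩ := Finset.exists_min_image (I.powerset.filter fun J => ∑ k ∈ J, f k = 1)
    (fun J => J.card) ⟨I, Finset.mem_filter.2 ⟨Finset.mem_powerset_self I, h⟩⟩
  rw [Finset.mem_filter, Finset.mem_powerset] at hJ
  refine ⟨J, hJ.1, hJ.2, fun J' hJ' hne h0 => ?_⟩
  have h1 : ∑ k ∈ J \ J', f k = 1 := by
    have h2 := Finset.sum_sdiff (f := f) hJ'
    rw [h0, add_zero] at h2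
    rw [h2, hJ.2]
  have h3 := hmin (J \ J') (Finset.mem_filter.2 ⟨Finset.mem_powerset.2
    (Finset.sdiff_subset.trans hJ.1), h1⟩)
  have h4 := Finset.card_sdiff_add_card_eq_card hJ'
  have h5 := Finset.card_pos.2 hne
  omega

/-- **Units in general position.** -/
theorem gen_pos (Γ : Subgroup Qbarˣ) (hΓ : Γ.FG) (ι : Type) [Fintype ι] [DecidableEq ι] (e : ℕ)
    (hN : 2 * e + 1 ≤ Fintype.card ι) (c : Finset ι → ι → Qbar)
    (hc : ∀ I : Finset ι, I.card = e + 2 → ∀ i ∈ I, c I i ≠ 0) :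
    {y : ι → ι → Qbar | ∃ u : ι → Qbar, (∀ i, u i ≠ 0) ∧ (∀ i j, y i j = u i / u j) ∧
      (∀ i j, ∃ w ∈ DivHull Γ, u i / u j = ((w : Qbarˣ) : Qbar)) ∧
      ∀ I : Finset ι, I.card = e + 2 → ∑ i ∈ I, c I i * u i = 0}.Finite := by
  classical
  by_contra hinf
  obtain ⟨Y, hY⟩ : ∃ Y : Set (ι → ι → Qbar), Y = {y : ι → ι → Qbar | ∃ u : ι → Qbar,
      (∀ i, u i ≠ 0) ∧ (∀ i j, y i j = u i / u j) ∧
      (∀ i j, ∃ w ∈ DivHull Γ, u i / u j = ((w : Qbarˣ) : Qbar)) ∧
      ∀ I : Finset ι, I.card = e + 2 → ∑ i ∈ I, c I i * u i = 0} := ⟨_, rfl⟩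
  rw [← hY] at hinf
  have hYinf : Infinite Y := Set.infinite_coe_iff.2 hinf
  let U : Ultrafilter Y := Filter.hyperfilter Y
  have hu : ∀ y : Y, ∃ u : ι → Qbar,
      (∀ i, u i ≠ 0) ∧ (∀ i j, y.1 i j = u i / u j) ∧
      (∀ i j, ∃ w ∈ DivHull Γ, u i / u j = ((w : Qbarˣ) : Qbar)) ∧
      ∀ I : Finset ι, I.card = e + 2 → ∑ i ∈ I, c I i * u i = 0 := by
    rintro ⟨y, hy⟩
    rw [hY] at hy
    exact hy
  choose u hu0 huy huΓ hurel using hu
  let E : ι → ι → Prop := fun i j => ∃ a, ∀ᶠ y : Y in (U : Filter Y), y.1 i j = a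
  have hErefl : ∀ i, E i i := fun i => ⟨1, Filter.Eventually.of_forall fun y => by
    rw [huy, div_self (hu0 y i)]⟩
  have hEsymm : ∀ i j, E i j → E j i := by
    rintro i j ⟨a, ha⟩
    refine ⟨a⁻¹, ?_⟩
    filter_upwards [ha] with y hy
    rw [← hy, huy, huy, inv_div]
  have hEtrans : ∀ i j k, E i j → E j k → E i k := by
    rintro i j k ⟨a, ha⟩ ⟨b, hb⟩
    refine ⟨a * b, ?_⟩
    filter_upwards [ha, hb] with y hy hy'
    rw [← hy, ← hy', huy, huy, huy, div_mul_div_cancel₀ (hu0 y j)]
  -- the relations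
  have hkey : ∀ I : Finset ι, I.card = e + 2 → ∀ i ∈ I, ∃ j ∈ I, j ≠ i ∧ E j i := by
    intro I hI i hi
    have hci := hc I hI i hi
    let a : ι → Qbar := fun k => -(c I k / c I i)
    have ha : ∀ k ∈ I, a k ≠ 0 := fun k hk => neg_ne_zero.2 (div_ne_zero (hc I hI k hk) hci)
    have hsum : ∀ y : Y, ∑ k ∈ I.erase i, a k * y.1 k i = 1 := by
      intro y
      have h1 := hurel y I hI
      rw [← Finset.add_sum_erase I _ hi] at h1
      have h2 : ∀ k, a k * y.1 k i = -(c I k * u y k) / (c I i * u y i) := by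
        intro k
        show -(c I k / c I i) * y.1 k i = _
        rw [huy]
        have := hu0 y i
        field_simp
      rw [Finset.sum_congr rfl fun k _ => h2 k, ← Finset.sum_div, Finset.sum_neg_distrib]
      rw [div_eq_one_iff_eq (mul_ne_zero hci (hu0 y i))]
      linear_combination -h1
    have hJ := fun y : Y => exists_minimal (I.erase i) (fun k => a k * y.1 k i) (hsum y)
    choose J hJ1 hJ2 hJ3 using hJ
    obtain ⟨J0, -, hJ0⟩ := const_of_finite U J Set.univ Set.finite_univ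
      (Filter.Eventually.of_forall fun _ => Set.mem_univ _)
    obtain ⟨y0, hy0⟩ := hJ0.exists
    obtain ⟨j, hj⟩ : J0.Nonempty := by
      rw [Finset.nonempty_iff_ne_empty]
      intro h
      have h1 := hJ2 y0
      rw [hy0, h, Finset.sum_empty] at h1
      exact zero_ne_one h1
    have hJ0I : J0 ⊆ I.erase i := by
      rw [← hy0]
      exact hJ1 y0
    have hjI := Finset.mem_erase.1 (hJ0I hj)
    refine ⟨j, hjI.2, hjI.1, ?_⟩
    let Γ2 : Subgroup Qbarˣ := Γ ⊔ Subgroup.closure (Set.range fun k : ι =>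
      if h : a k ≠ 0 then Units.mk0 (a k) h else 1)
    have hΓ2 : Γ2.FG := Subgroup.FG.sup hΓ ((Subgroup.fg_iff _).2 ⟨_, rfl, Set.finite_range _⟩)
    obtain ⟨x, -, hx⟩ := const_of_finite U (fun (y : Y) (k : J0) => a k * y.1 k i) _
      (unitQ Γ2 hΓ2 J0) (by
        filter_upwards [hJ0] with y hy
        refine ⟨fun k => ?_, ?_, fun I' hI' h0 => ?_⟩
        · obtain ⟨w, hw, he⟩ := huΓ y k i
          have hk := ha k (Finset.mem_erase.1 (hJ0I k.2)).2
          refine ⟨Units.mk0 (a k) hk * w, ?_, ?_⟩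
          · refine (divGroup Γ2).mul_mem (sub_hull _ _ ?_) (divHull_mono le_sup_left hw)
            refine Subgroup.mem_sup_right (Subgroup.subset_closure ⟨k, ?_⟩)
            show (if h : a k ≠ 0 then Units.mk0 (a k) h else 1) = _
            rw [dif_pos hk]
          · rw [huy, he]
            rfl
        · have h1 := hJ2 y
          rw [hy] at h1
          rw [← h1]
          exact Finset.sum_coe_sort J0 (fun k => a k * y.1 k i)
        · refine hJ3 y (I'.map (Function.Embedding.subtype _)) ?_ hI'.map ?_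
          · rw [hy]
            intro k hk
            obtain ⟨k', -, rfl⟩ := Finset.mem_map.1 hk
            exact k'.2
          · rw [Finset.sum_map]
            exact h0)
    refine ⟨x ⟨j, hj⟩ / a j, ?_⟩
    filter_upwards [hx] with y hy
    have h1 := congrFun hy ⟨j, hj⟩
    simp only at h1
    rw [← h1, mul_div_cancel_left₀ _ (ha j hjI.2)]
  -- all indices are equivalent
  have hcls : ∀ i : ι, ¬ 2 * (Finset.univ.filter fun k => E k i).card ≤ Fintype.card ι := by
    intro i hcard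
    have h1 : e + 1 ≤ (Finset.univ.filter fun k => ¬ E k i).card := by
      have h2 := Finset.card_filter_add_card_filter_not (s := (Finset.univ : Finset ι))
        (fun k => E k i)
      rw [Finset.card_univ] at h2
      omega
    obtain ⟨A, hA, hAc⟩ := Finset.exists_subset_card_eq h1
    have hiA : i ∉ A := fun h => (Finset.mem_filter.1 (hA h)).2 (hErefl i)
    obtain ⟨j, hj, hji, hE⟩ := hkey (insert i A) (by rw [Finset.card_insert_of_notMem hiA, hAc])
      i (Finset.mem_insert_self i A)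
    have hjA : j ∈ A := (Finset.mem_insert.1 hj).resolve_left hji
    exact (Finset.mem_filter.1 (hA hjA)).2 hE
  have hall : ∀ i j, E i j := by
    intro i j
    by_contra hij
    have hdis : Disjoint (Finset.univ.filter fun k => E k i) (Finset.univ.filter fun k => E k j) := by
      rw [Finset.disjoint_filter]
      intro k _ h1 h2
      exact hij (hEtrans i k j (hEsymm k i h1) h2)
    have h1 := Finset.card_le_card (Finset.subset_univ
      ((Finset.univ.filter fun k => E k i) ∪ (Finset.univ.filter fun k => E k j)))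
    rw [Finset.card_union_of_disjoint hdis, Finset.card_univ] at h1
    have h2 := hcls i
    have h3 := hcls j
    omega
  choose a ha using hall
  have hev : ∀ᶠ y : Y in (U : Filter Y), y.1 = a := by
    have h1 : ∀ᶠ y : Y in (U : Filter Y), ∀ i j, y.1 i j = a i j := by
      rw [Filter.eventually_all]
      intro i
      rw [Filter.eventually_all]
      exact ha i
    filter_upwards [h1] with y hy
    funext i j
    exact hy i j
  have hfin : {y : Y | y.1 = a}.Finite := by
    refine Set.Subsingleton.finite ?_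
    intro y hy z hz
    exact Subtype.ext (hy.trans hz.symm)
  exact Filter.notMem_hyperfilter_of_finite hfin hev

end Pool.Agent.H594.BD
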