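import Mathlib
import Pool.Agent.H594.BD.GenPos
import Pool.Agent.H594.BD.Ext

set_option autoImplicit false
set_option linter.unusedSectionVars false

/-!
# Monic polynomials whose values at many points are units
-/

namespace Pool.Agent.H594.BD

open Finset
open Pool.Agent.H594.ML
open Pool.Agent.Helper259.AbsHt Pool.Agent.Y215.SK Pool.Agent.Y215.AF

theorem lagr {κ : Type} [DecidableEq κ] (I : Finset κ) (v : κ → Qbar) (hv : Function.Injective v)
    (F : Polynomial Qbar) (h : F.natDegree < I.card) :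
    ∑ i ∈ I, (∏ j ∈ I.erase i, (v i - v j))⁻¹ * F.eval (v i) = F.coeff (I.card - 1) := by
  have h1 : F.degree < (I.card : WithBot ℕ) := by
    by_cases h0 : F = 0
    · rw [h0, Polynomial.degree_zero]
      exact WithBot.bot_lt_coe _
    · rw [Polynomial.degree_eq_natDegree h0]
      exact_mod_cast h
  rw [Lagrange.coeff_eq_sum (s := I) (v := v) hv.injOn h1]
  refine Finset.sum_congr rfl fun i _ => ?_
  rw [div_eq_inv_mul]

theorem prod_ne {κ : Type} [DecidableEq κ] (I : Finset κ) (v : κ → Qbar)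
    (hv : Function.Injective v) (i : κ) : (∏ j ∈ I.erase i, (v i - v j))⁻¹ ≠ 0 := by
  refine inv_ne_zero (Finset.prod_ne_zero_iff.2 fun j hj => sub_ne_zero.2 fun h => ?_)
  exact (Finset.mem_erase.1 hj).1 (hv h).symm

/-- finite points -/
theorem poly_fin_A (Γ : Subgroup Qbarˣ) (hΓ : Γ.FG) (T : Finset Qbar) (e : ℕ)
    (hT : 2 * e + 1 ≤ T.card) :
    {F : Polynomial Qbar | F.Monic ∧ F.natDegree = e ∧ (∀ a ∈ T, F.eval a ≠ 0) ∧
      ∀ a ∈ T, ∀ b ∈ T, ∃ w ∈ DivHull Γ, F.eval a / F.eval b = ((w : Qbarˣ) : Qbar)}.Finite := by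
  classical
  have hinj : Function.Injective (fun a : T => (a : Qbar)) := Subtype.val_injective
  have hfin := gen_pos Γ hΓ T e (by rw [Fintype.card_coe]; exact hT)
    (fun I i => (∏ j ∈ I.erase i, ((i : Qbar) - (j : Qbar)))⁻¹)
    (fun I _ i _ => prod_ne I _ hinj i)
  refine Set.Finite.of_finite_image (f := fun (F : Polynomial Qbar) (i j : T) =>
    F.eval (i : Qbar) / F.eval (j : Qbar)) (hfin.subset ?_) ?_
  · rintro _ ⟨F, ⟨hF1, hF2, hF3, hF4⟩, rfl⟩
    refine ⟨fun i => F.eval (i : Qbar), fun i => hF3 i i.2, fun i j => rfl,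
      fun i j => hF4 i i.2 j j.2, fun I hI => ?_⟩
    have h1 := lagr I (fun a : T => (a : Qbar)) hinj F (by rw [hI, hF2]; omega)
    rw [h1, hI]
    exact Polynomial.coeff_eq_zero_of_natDegree_lt (by rw [hF2]; omega)
  · rintro F ⟨hF1, hF2, hF3, -⟩ G ⟨hG1, hG2, hG3, -⟩ hFG
    obtain ⟨b, hb⟩ : T.Nonempty := Finset.card_pos.1 (by omega)
    have hP : Polynomial.C (G.eval b) * F - Polynomial.C (F.eval b) * G = 0 := by
      refine Polynomial.eq_zero_of_natDegree_lt_card_of_eval_eq_zero' _ T (fun a ha => ?_) ?_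
      · have h1 := congrFun (congrFun hFG ⟨a, ha⟩) ⟨b, hb⟩
        simp only at h1
        rw [div_eq_div_iff (hF3 b hb) (hG3 b hb)] at h1
        rw [Polynomial.eval_sub, Polynomial.eval_mul, Polynomial.eval_mul, Polynomial.eval_C,
          Polynomial.eval_C]
        linear_combination h1
      · refine lt_of_le_of_lt (Polynomial.natDegree_sub_le_of_le
          (Polynomial.natDegree_C_mul_le _ _) (Polynomial.natDegree_C_mul_le _ _)) ?_
        rw [hF2, hG2, max_self]
        omega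
    have hc : G.eval b = F.eval b := by
      have h1 := congrArg (fun p : Polynomial Qbar => p.coeff e) hP
      simp only [Polynomial.coeff_sub, Polynomial.coeff_C_mul, Polynomial.coeff_zero] at h1
      have h2 : F.coeff e = 1 := by rw [← hF2]; exact hF1.coeff_natDegree
      have h3 : G.coeff e = 1 := by rw [← hG2]; exact hG1.coeff_natDegree
      rw [h2, h3] at h1
      linear_combination h1
    rw [hc, ← mul_sub] at hP
    exact sub_eq_zero.1 ((mul_eq_zero.1 hP).resolve_left (Polynomial.C_ne_zero.2 (hF3 b hb)))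

/-- the points and infinity -/
theorem poly_fin_B (Γ : Subgroup Qbarˣ) (hΓ : Γ.FG) (T : Finset Qbar) (e : ℕ) (he : 1 ≤ e)
    (hT : 2 * e ≤ T.card) :
    {F : Polynomial Qbar | F.Monic ∧ F.natDegree = e ∧
      ∀ a ∈ T, ∃ w ∈ DivHull Γ, F.eval a = ((w : Qbarˣ) : Qbar)}.Finite := by
  classical
  have hinj : Function.Injective (fun a : T => (a : Qbar)) := Subtype.val_injective
  let c : Finset (Option T) → Option T → Qbar := fun I o => o.elim (-1)
    (fun i => (∏ j ∈ (eraseNone I).erase i, ((i : Qbar) - (j : Qbar)))⁻¹)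
  have hfin := gen_pos Γ hΓ (Option T) e (by
    rw [Fintype.card_option, Fintype.card_coe]; omega) c (by
    rintro I - (_ | i) -
    · exact neg_ne_zero.2 one_ne_zero
    · exact prod_ne (eraseNone I) _ hinj i)
  let u : Polynomial Qbar → Option T → Qbar := fun F o => o.elim 1 (fun i => F.eval (i : Qbar))
  refine Set.Finite.of_finite_image (f := fun (F : Polynomial Qbar) (i j : Option T) =>
    u F i / u F j) (hfin.subset ?_) ?_
  · rintro _ ⟨F, ⟨hF1, hF2, hF3⟩, rfl⟩
    have hu : ∀ o, ∃ w ∈ DivHull Γ, u F o = ((w : Qbarˣ) : Qbar) := by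
      rintro (_ | i)
      · exact ⟨1, (divGroup Γ).one_mem, rfl⟩
      · exact hF3 i i.2
    refine ⟨u F, fun i => ?_, fun i j => rfl, fun i j => ?_, fun I hI => ?_⟩
    · obtain ⟨w, -, h⟩ := hu i
      rw [h]
      exact w.ne_zero
    · obtain ⟨w, hw, h⟩ := hu i
      obtain ⟨w', hw', h'⟩ := hu j
      exact ⟨w / w', (divGroup Γ).div_mem hw hw', by rw [h, h', Units.val_div_eq_div_val]⟩
    · have h0 : I.erase none = (eraseNone I).map Function.Embedding.some :=
        (Finset.map_some_eraseNone I).symm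
      have h1 : ∑ i ∈ I.erase none, c I i * u F i = F.coeff ((eraseNone I).card - 1) := by
        rw [h0, Finset.sum_map]
        refine lagr (eraseNone I) (fun a : T => (a : Qbar)) hinj F ?_
        have h2 : (eraseNone I).card = (I.erase none).card := by rw [h0, Finset.card_map]
        have h3 := Finset.card_erase_add_one (s := I) (a := none)
        by_cases h4 : none ∈ I
        · have h5 := h3 h4
          rw [h2, hF2]
          omega
        · rw [h2, Finset.erase_eq_of_notMem h4, hI, hF2]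
          omega
      have h2 : (eraseNone I).card = (I.erase none).card := by rw [h0, Finset.card_map]
      by_cases h4 : none ∈ I
      · rw [← Finset.add_sum_erase I _ h4, h1, h2, Finset.card_erase_of_mem h4, hI]
        have h5 : F.coeff (e + 2 - 1 - 1) = 1 := by
          have h6 : e + 2 - 1 - 1 = F.natDegree := by rw [hF2]; omega
          rw [h6]
          exact hF1.coeff_natDegree
        rw [h5]
        show (-1 : Qbar) * 1 + 1 = 0
        ring
      · rw [Finset.erase_eq_of_notMem h4] at h1 h2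
        rw [h1, h2, hI]
        exact Polynomial.coeff_eq_zero_of_natDegree_lt (by rw [hF2]; omega)
  · rintro F ⟨hF1, hF2, hF3⟩ G ⟨hG1, hG2, hG3⟩ hFG
    have hP : F - G = 0 := by
      refine Polynomial.eq_zero_of_natDegree_lt_card_of_eval_eq_zero' _ T (fun a ha => ?_) ?_
      · have h1 := congrFun (congrFun hFG (some ⟨a, ha⟩)) none
        have h2 : F.eval a / 1 = G.eval a / 1 := h1
        rw [div_one, div_one] at h2
        rw [Polynomial.eval_sub, h2, sub_self]
      · refine lt_of_le_of_lt (Polynomial.natDegree_sub_le_of_le le_rfl le_rfl) ?_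
        rw [hF2, hG2, max_self]
        omega
    exact sub_eq_zero.1 hP

/-- **Numbers of bounded degree.** -/
theorem deg_finite (Γ : Subgroup Qbarˣ) (hΓ : Γ.FG) (K : IntermediateField ℚ Qbar)
    [FiniteDimensional ℚ K] (R : Finset Qbar) (d : ℕ) :
    {s : Qbar | (∃ P : Polynomial Qbar, P ≠ 0 ∧ P.natDegree ≤ d ∧ (∀ i, P.coeff i ∈ K) ∧
      P.eval s = 0) ∧ (∀ a ∈ R, s ≠ a) ∧ ∃ μ : Qbar → ℤ,
      2 * d + 1 ≤ (R.filter fun a => μ a ≠ 0).card + (if ∑ a ∈ R, μ a = 0 then 0 else 1) ∧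
      ∃ u ∈ DivHull Γ, ∏ a ∈ R, (s - a) ^ μ a = ((u : Qbarˣ) : Qbar)}.Finite := by
  classical
  obtain ⟨L, Γ', hKL, hΓ', hmain⟩ := conj_units Γ hΓ K R
  have hdeg : ∀ s : Qbar, (∃ P : Polynomial Qbar, P ≠ 0 ∧ P.natDegree ≤ d ∧
      (∀ i, P.coeff i ∈ K) ∧ P.eval s = 0) → (mp L s).natDegree ≤ d := by
    rintro s ⟨P, hP0, hPd, hPK, hPs⟩
    obtain ⟨P', hP'⟩ := lift_poly L P (fun i => hKL (hPK i))
    have h1 : P' ≠ 0 := by
      rintro rfl
      rw [Polynomial.map_zero] at hP'
      exact hP0 hP'.symm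
    have h2 : Polynomial.aeval s P' = 0 := by
      rw [← Polynomial.eval_map_algebraMap, hP', hPs]
    have h3 := Polynomial.natDegree_le_natDegree (minpoly.degree_le_of_ne_zero L s h1 h2)
    unfold mp
    rw [Polynomial.natDegree_map]
    refine h3.trans ?_
    rw [← hP', Polynomial.natDegree_map] at hPd
    exact hPd
  have hpos : ∀ s : Qbar, 1 ≤ (mp L s).natDegree := by
    intro s
    unfold mp
    rw [Polynomial.natDegree_map]
    exact minpoly.natDegree_pos (Algebra.IsIntegral.isIntegral s)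
  have hF : (⋃ p ∈ R.powerset ×ˢ Finset.range (d + 1),
      ({F : Polynomial Qbar | 2 * p.2 + 1 ≤ p.1.card ∧ F.Monic ∧ F.natDegree = p.2 ∧
        (∀ a ∈ p.1, F.eval a ≠ 0) ∧ ∀ a ∈ p.1, ∀ b ∈ p.1, ∃ w ∈ DivHull Γ',
          F.eval a / F.eval b = ((w : Qbarˣ) : Qbar)} ∪
      {F : Polynomial Qbar | 1 ≤ p.2 ∧ 2 * p.2 ≤ p.1.card ∧ F.Monic ∧ F.natDegree = p.2 ∧
        ∀ a ∈ p.1, ∃ w ∈ DivHull Γ', F.eval a = ((w : Qbarˣ) : Qbar)})).Finite := by
    refine (Finset.finite_toSet _).biUnion fun p _ => Set.Finite.union ?_ ?_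
    · by_cases h : 2 * p.2 + 1 ≤ p.1.card
      · exact (poly_fin_A Γ' hΓ' p.1 p.2 h).subset fun F hF => hF.2
      · exact Set.finite_empty.subset fun F hF => h hF.1
    · by_cases h : 1 ≤ p.2 ∧ 2 * p.2 ≤ p.1.card
      · exact (poly_fin_B Γ' hΓ' p.1 p.2 h.1 h.2).subset fun F hF => hF.2.2
      · exact Set.finite_empty.subset fun F hF => h ⟨hF.1, hF.2.1⟩
  refine ((hF.biUnion fun F _ => F.roots.toFinset.finite_toSet)).subset ?_
  rintro s ⟨hs, hsR, μ, hμ, u, hu, he⟩
  have h1 := hdeg s hs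
  have h2 := hpos s
  obtain ⟨hm1, hm2⟩ := hmain s hsR μ u hu he
  refine Set.mem_biUnion (x := mp L s) ?_ (Finset.mem_coe.2 (Multiset.mem_toFinset.2
    ((Polynomial.mem_roots (mp_monic L s).ne_zero).2 (mp_root L s))))
  refine Set.mem_biUnion (x := (R.filter (fun a => μ a ≠ 0), (mp L s).natDegree))
    (Finset.mem_coe.2 (Finset.mk_mem_product (Finset.mem_powerset.2 (Finset.filter_subset _ _))
      (Finset.mem_range.2 (by omega)))) ?_
  by_cases hsum : ∑ a ∈ R, μ a = 0
  · rw [if_pos hsum] at hμ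
    have hval : ∀ a ∈ R.filter (fun a => μ a ≠ 0), ∀ b ∈ R.filter (fun a => μ a ≠ 0),
        ∃ w ∈ DivHull Γ', (mp L s).eval a / (mp L s).eval b = ((w : Qbarˣ) : Qbar) := by
      intro a ha b hb
      rw [Finset.mem_filter] at ha hb
      obtain ⟨w, hw, h⟩ := hm2 a ha.1 b hb.1 ha.2 hb.2
      exact ⟨w, sub_hull _ _ hw, h⟩
    refine Or.inl ⟨by
      show 2 * (mp L s).natDegree + 1 ≤ (R.filter (fun a => μ a ≠ 0)).card
      omega, mp_monic L s, rfl,
      fun a ha h0 => ?_, hval⟩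
    obtain ⟨w, -, h⟩ := hval a ha a ha
    rw [h0, div_zero] at h
    exact w.ne_zero h.symm
  · rw [if_neg hsum] at hμ
    refine Or.inr ⟨h2, by
      show 2 * (mp L s).natDegree ≤ (R.filter (fun a => μ a ≠ 0)).card
      omega, mp_monic L s, rfl,
      fun a ha => ?_⟩
    rw [Finset.mem_filter] at ha
    obtain ⟨w, hw, h⟩ := hm1 hsum a ha.1 ha.2
    exact ⟨w, sub_hull _ _ hw, h⟩

end Pool.Agent.H594.BD
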