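import Mathlib
import Pool.Agent.H594.BD.Lagr
import Pool.Agent.H594.KP.Fam

set_option autoImplicit false
set_option linter.unusedSectionVars false

/-!
# Values of rational functions at the algebraic numbers of bounded degree over a number field
-/

namespace Pool.Agent.H594.BD

open Finset
open Pool.Agent.H594.ML Pool.Agent.H594.KP
open Pool.Agent.Helper259.AbsHt Pool.Agent.Y215.SK Pool.Agent.Y215.AF
open Pool.Agent.H301R2.SSE (QB mem_QB Lt Lt_one Lt_mul Lt_alg Lt_log)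

/-- the numbers of degree at most `d` over `K` -/
def DegLe (K : IntermediateField ℚ ℂ) (d : ℕ) : Set ℂ :=
  {z | ∃ P : Polynomial ℂ, P ≠ 0 ∧ P.natDegree ≤ d ∧ (∀ i, P.coeff i ∈ K) ∧ P.eval z = 0}

theorem degLe_alg {K : IntermediateField ℚ ℂ} [FiniteDimensional ℚ K] {d : ℕ} {z : ℂ}
    (hz : z ∈ DegLe K d) : IsAlgebraic ℚ z := by
  obtain ⟨P, hP, -, hPK, hPz⟩ := hz
  exact root_alg (fun i => mem_alg (hPK i)) ((Polynomial.mem_roots hP).2 hPz)

/-- products of powers of linear functions in a group of finite rank -/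
theorem deg_finite_C (Γ : Subgroup Qbarˣ) (hΓ : Γ.FG) (K : IntermediateField ℚ ℂ)
    [FiniteDimensional ℚ K] (R : Finset ℂ) (hR : ∀ x ∈ R, IsAlgebraic ℚ x) (d : ℕ) :
    {s : ℂ | s ∈ DegLe K d ∧ (∀ a ∈ R, s ≠ a) ∧ ∃ μ : ℂ → ℤ,
      2 * d + 1 ≤ (R.filter fun a => μ a ≠ 0).card + (if ∑ a ∈ R, μ a = 0 then 0 else 1) ∧
      ∃ u ∈ DivHull Γ, ∏ a ∈ R, (s - a) ^ μ a = sg u}.Finite := by
  classical
  obtain ⟨R', hR'⟩ : ∃ R' : Finset Qbar, R'.image sg = R := by
    have h1 : ∀ x : R, ∃ y : Qbar, sg y = x := fun x => exists_sg (hR x x.2)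
    choose y hy using h1
    refine ⟨Finset.univ.image y, ?_⟩
    ext x
    simp only [Finset.mem_image, Finset.mem_univ, true_and, exists_exists_eq_and]
    constructor
    · rintro ⟨a, rfl⟩
      rw [hy]
      exact a.2
    · intro hx
      exact ⟨⟨x, hx⟩, hy _⟩
  let K' : IntermediateField ℚ Qbar := K.comap sgA
  have hfd : FiniteDimensional ℚ K' := comap_fin K
  refine ((deg_finite Γ hΓ K' R' d).image sg).subset ?_
  rintro s ⟨hs, hsR, μ, hμ, u, hu, he⟩
  obtain ⟨y, rfl⟩ : ∃ y : Qbar, sg y = s := exists_sg (degLe_alg hs)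
  obtain ⟨P, hP, hPd, hPK, hPy⟩ := hs
  obtain ⟨P', hP'⟩ := lift_sg (P := P) (fun i => mem_alg (hPK i))
  refine ⟨y, ⟨⟨P', ?_, ?_, fun i => ?_, ?_⟩, ?_, fun a => μ (sg a), ?_, u, hu, ?_⟩, rfl⟩
  · rintro rfl
    rw [Polynomial.map_zero] at hP'
    exact hP hP'.symm
  · rw [← hP', Polynomial.natDegree_map] at hPd
    exact hPd
  · show sg (P'.coeff i) ∈ K
    have h1 := hPK i
    rw [← hP', Polynomial.coeff_map] at h1
    exact h1
  · apply sg_inj
    rw [map_zero, ← hPy, ← hP', Polynomial.eval_map_apply]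
  · rintro a ha rfl
    exact hsR (sg y) (by rw [← hR']; exact Finset.mem_image_of_mem _ ha) rfl
  · have h1 : (R.filter fun a => μ a ≠ 0).card = (R'.filter fun a => μ (sg a) ≠ 0).card := by
      rw [← hR', Finset.filter_image, Finset.card_image_of_injective _ (fun _ _ h => sg_inj h)]
    have h2 : ∑ a ∈ R, μ a = ∑ a ∈ R', μ (sg a) := by
      rw [← hR', Finset.sum_image (fun _ _ _ _ h => sg_inj h)]
    rw [h1, h2] at hμ
    exact hμ
  · apply sg_inj
    rw [← he, ← hR', Finset.prod_image (fun x _ y _ h => sg_inj h), map_prod]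
    refine Finset.prod_congr rfl fun a _ => ?_
    rw [map_zpow₀, map_sub]

/-- the number of the zeros and poles on the projective line of the product of the powers
`(A_j / B_j) ^ m_j` -/
noncomputable def zp {k : ℕ} (A B : Fin k → Polynomial ℂ) (m : Fin k → ℤ) : ℕ :=
  {a : ℂ | ∑ j, m j * ord (A j) (B j) a ≠ 0}.ncard +
    if ∑ j, m j * (((A j).natDegree : ℤ) - ((B j).natDegree : ℤ)) = 0 then 0 else 1

theorem sum_mult (P : Polynomial ℂ) (R : Finset ℂ) (hR : ∀ a ∈ P.roots, a ∈ R) :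
    ∑ a ∈ R, P.rootMultiplicity a = P.natDegree := by
  classical
  have h1 := (IsAlgClosed.splits P).natDegree_eq_card_roots
  rw [h1, ← Multiset.toFinset_sum_count_eq]
  symm
  refine Finset.sum_subset_zero_on_sdiff (fun a ha => hR a (Multiset.mem_toFinset.1 ha))
    (fun a ha => ?_) (fun a _ => Polynomial.count_roots P)
  rw [← Polynomial.count_roots, Multiset.count_eq_zero]
  intro h
  exact (Finset.mem_sdiff.1 ha).2 (Multiset.mem_toFinset.2 h)

/-- the values are multiplicatively independent modulo a group of finite rank -/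
theorem indep_deg (Γ : Subgroup Qbarˣ) (hΓ : Γ.FG) (K : IntermediateField ℚ ℂ)
    [FiniteDimensional ℚ K] (d : ℕ) {k : ℕ} (A B : Fin k → Polynomial ℂ)
    (hA : ∀ j i, IsAlgebraic ℚ ((A j).coeff i)) (hB : ∀ j i, IsAlgebraic ℚ ((B j).coeff i))
    (hA0 : ∀ j, A j ≠ 0) (hB0 : ∀ j, B j ≠ 0)
    (hS : ∀ m : Fin k → ℤ, m ≠ 0 → 2 * d + 1 ≤ zp A B m) :
    {z : ℂ | z ∈ DegLe K d ∧ ¬ ((∀ j, (A j).eval z ≠ 0 ∧ (B j).eval z ≠ 0) ∧
      ∀ m : Fin k → ℤ, m ≠ 0 →
      ¬ ∃ u ∈ DivHull Γ, ∏ j, ((A j).eval z / (B j).eval z) ^ m j = sg u)}.Finite := by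
  classical
  let R : Finset ℂ := (Finset.univ.biUnion fun j => (A j).roots.toFinset) ∪
    Finset.univ.biUnion fun j => (B j).roots.toFinset
  have hRA : ∀ j a, a ∈ (A j).roots → a ∈ R := fun j a ha =>
    Finset.mem_union_left _ (Finset.mem_biUnion.2 ⟨j, Finset.mem_univ j, Multiset.mem_toFinset.2 ha⟩)
  have hRB : ∀ j a, a ∈ (B j).roots → a ∈ R := fun j a ha =>
    Finset.mem_union_right _ (Finset.mem_biUnion.2 ⟨j, Finset.mem_univ j, Multiset.mem_toFinset.2 ha⟩)
  have hR : ∀ a ∈ R, IsAlgebraic ℚ a := by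
    intro a ha
    rcases Finset.mem_union.1 ha with h | h
    · obtain ⟨j, -, hj⟩ := Finset.mem_biUnion.1 h
      exact root_alg (hA j) (Multiset.mem_toFinset.1 hj)
    · obtain ⟨j, -, hj⟩ := Finset.mem_biUnion.1 h
      exact root_alg (hB j) (Multiset.mem_toFinset.1 hj)
  have hzero : ∀ c, c ∉ R → ∀ j, ord (A j) (B j) c = 0 := by
    intro c hc j
    have h1 : (A j).rootMultiplicity c = 0 := by
      rw [Polynomial.rootMultiplicity_eq_zero_iff]
      intro h2
      exact absurd (hRA j c ((Polynomial.mem_roots (hA0 j)).2 h2)) hc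
    have h3 : (B j).rootMultiplicity c = 0 := by
      rw [Polynomial.rootMultiplicity_eq_zero_iff]
      intro h2
      exact absurd (hRB j c ((Polynomial.mem_roots (hB0 j)).2 h2)) hc
    unfold ord
    rw [h1, h3]
    simp
  have hzp : ∀ m : Fin k → ℤ, zp A B m = (R.filter fun a => ∑ j, m j * ord (A j) (B j) a ≠ 0).card +
      if ∑ a ∈ R, ∑ j, m j * ord (A j) (B j) a = 0 then 0 else 1 := by
    intro m
    unfold zp
    have h1 : {a : ℂ | ∑ j, m j * ord (A j) (B j) a ≠ 0} =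
        ((R.filter fun a => ∑ j, m j * ord (A j) (B j) a ≠ 0 : Finset ℂ) : Set ℂ) := by
      ext a
      simp only [Set.mem_ofPred_eq, Finset.coe_filter]
      constructor
      · intro h
        refine ⟨?_, h⟩
        by_contra hc
        apply h
        refine Finset.sum_eq_zero fun j _ => ?_
        rw [hzero a hc j, mul_zero]
      · exact fun h => h.2
    have h2 : ∑ a ∈ R, ∑ j, m j * ord (A j) (B j) a =
        ∑ j, m j * (((A j).natDegree : ℤ) - ((B j).natDegree : ℤ)) := by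
      rw [Finset.sum_comm]
      refine Finset.sum_congr rfl fun j _ => ?_
      rw [← Finset.mul_sum, ← sum_mult (A j) R (hRA j), ← sum_mult (B j) R (hRB j)]
      unfold ord
      rw [Finset.sum_sub_distrib]
      push_cast
      rfl
    rw [h1, h2, Set.ncard_coe_finset]
  have hC : ∀ j, ∃ u : Qbarˣ, (A j).leadingCoeff / (B j).leadingCoeff = sg u := fun j =>
    exists_unit (by
      rw [div_eq_mul_inv]
      exact (hA j _).mul (hB j _).inv)
      (div_ne_zero (Polynomial.leadingCoeff_ne_zero.2 (hA0 j))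
        (Polynomial.leadingCoeff_ne_zero.2 (hB0 j)))
  choose C hC using hC
  let Γ2 : Subgroup Qbarˣ := Γ ⊔ Subgroup.closure (Set.range C)
  have hΓ2 : Γ2.FG := Subgroup.FG.sup hΓ
    ((Subgroup.fg_iff _).2 ⟨Set.range C, rfl, Set.finite_range C⟩)
  have hΓC : ∀ j, C j ∈ Γ2 := fun j =>
    Subgroup.mem_sup_right (Subgroup.subset_closure ⟨j, rfl⟩)
  refine ((deg_finite_C Γ2 hΓ2 K R hR d).union R.finite_toSet).subset ?_
  rintro z ⟨hz, hno⟩
  by_contra hzF
  apply hno
  have hzR : ∀ a ∈ R, z ≠ a := by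
    rintro a ha rfl
    exact hzF (Or.inr (Finset.mem_coe.2 ha))
  refine ⟨fun j => ⟨fun h => ?_, fun h => ?_⟩, fun m hm => ?_⟩
  · exact hzR z (hRA j z ((Polynomial.mem_roots (hA0 j)).2 h)) rfl
  · exact hzR z (hRB j z ((Polynomial.mem_roots (hB0 j)).2 h)) rfl
  · rintro ⟨u, hu, he⟩
    refine hzF (Or.inl ⟨hz, hzR, fun a => ∑ j, m j * ord (A j) (B j) a, ?_,
      u * ∏ j, C j ^ (-m j), ?_, ?_⟩)
    · have h1 := hS m hm
      rw [hzp] at h1
      convert h1 using 2
    · obtain ⟨n, hn, hun⟩ := hu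
      have h1 : u ∈ DivHull Γ2 := ⟨n, hn, Subgroup.mem_sup_left hun⟩
      refine (divGroup Γ2).mul_mem h1 ?_
      exact (divGroup Γ2).prod_mem fun j _ => (divGroup Γ2).zpow_mem (sub_hull _ _ (hΓC j)) _
    · rw [eval_quot A B R hRA hRB m z hzR] at he
      have h2 : (∏ j, ((A j).leadingCoeff / (B j).leadingCoeff) ^ m j) ≠ 0 := by
        refine Finset.prod_ne_zero_iff.2 fun j _ => zpow_ne_zero _ ?_
        rw [hC]
        exact (map_ne_zero sg).2 (C j).ne_zero
      have h3 : ∏ a ∈ R, (z - a) ^ (∑ j, m j * ord (A j) (B j) a) =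
          sg u * (∏ j, ((A j).leadingCoeff / (B j).leadingCoeff) ^ m j)⁻¹ := by
        rw [← he]
        field_simp
      rw [h3, Units.val_mul, map_mul]
      congr 1
      rw [← Finset.prod_inv_distrib, Units.coe_prod, map_prod]
      refine Finset.prod_congr rfl fun j _ => ?_
      rw [Units.val_zpow_eq_zpow_val, map_zpow₀, zpow_neg, hC]

/-- the powers of the values -/
theorem values_deg {r k : ℕ} (t : Fin r → ℂ) (D : ℕ) (w : Fin k → ℂ)
    (K : IntermediateField ℚ ℂ) [FiniteDimensional ℚ K] (d : ℕ) (A B : Fin k → Polynomial ℂ)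
    (hA : ∀ j i, IsAlgebraic ℚ ((A j).coeff i)) (hB : ∀ j i, IsAlgebraic ℚ ((B j).coeff i))
    (hA0 : ∀ j, A j ≠ 0) (hB0 : ∀ j, B j ≠ 0)
    (hS : ∀ m : Fin k → ℤ, m ≠ 0 → 2 * d + 1 ≤ zp A B m) :
    {z : ℂ | z ∈ DegLe K d ∧ ¬ ((∀ j, (A j).eval z ≠ 0 ∧ (B j).eval z ≠ 0) ∧ ∀ l : Fin k → ℂ,
      (∀ j, Complex.exp (l j) = (A j).eval z / (B j).eval z) →
      ∀ (A₀ Q : MvPolynomial (Fin r) QB) (A' : Fin k → MvPolynomial (Fin r) QB),
        (∀ i, A₀.degreeOf i ≤ D) → (∀ i, Q.degreeOf i ≤ D) → (∀ j i, (A' j).degreeOf i ≤ D) →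
        MvPolynomial.aeval t Q ≠ 0 →
        MvPolynomial.aeval t A₀ / MvPolynomial.aeval t Q +
          ∑ j, MvPolynomial.aeval t (A' j) / MvPolynomial.aeval t Q * (l j + w j) ∈ Lt →
        ∀ j, ∃ c : QB, MvPolynomial.aeval t (A' j) / MvPolynomial.aeval t Q = (c : ℂ))}.Finite := by
  obtain ⟨Γ, hΓ, hmain⟩ := powers_main t D w
  refine (indep_deg Γ hΓ K d A B hA hB hA0 hB0 hS).subset ?_
  rintro z ⟨hz, hno⟩
  refine ⟨hz, fun hind => hno ⟨hind.1, fun l hl => ?_⟩⟩
  have halg : ∀ j, IsAlgebraic ℚ ((A j).eval z / (B j).eval z) := by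
    intro j
    have hz' : IsAlgebraic ℚ z := degLe_alg hz
    have hev : ∀ P : Polynomial ℂ, (∀ i, IsAlgebraic ℚ (P.coeff i)) → IsAlgebraic ℚ (P.eval z) := by
      intro P hP
      rw [Polynomial.eval_eq_sum_range]
      exact Finset.sum_induction _ (IsAlgebraic ℚ) (fun a b ha hb => ha.add hb) isAlgebraic_zero
        fun i _ => (hP i).mul (hz'.pow i)
    rw [div_eq_mul_inv]
    exact (hev _ (hA j)).mul (hev _ (hB j)).inv
  exact hmain _ halg hind.2 l hl

/-- infinitely many exceptional numbers of degree at most `d` -/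
theorem conv_deg (K : IntermediateField ℚ ℂ) [FiniteDimensional ℚ K] (d : ℕ) {k : ℕ}
    (A B : Fin k → Polynomial ℂ) (hA0 : ∀ j, A j ≠ 0) (hB0 : ∀ j, B j ≠ 0) (m : Fin k → ℤ)
    (hm : m ≠ 0) (P Q : Polynomial ℂ) (hP : ∀ i, P.coeff i ∈ K) (hQ : ∀ i, Q.coeff i ∈ K)
    (hPd : P.natDegree ≤ d) (hQd : Q.natDegree ≤ d) (hPQ : IsCoprime P Q)
    (hnc : ¬ (P.natDegree = 0 ∧ Q.natDegree = 0)) (r : ℤ)
    (ho : ∀ a, ∑ j, m j * ord (A j) (B j) a = r * ord P Q a) :
    ∃ (t : ℂ) (w : Fin k → ℂ), Transcendental ℚ t ∧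
      {z | z ∈ DegLe K d ∧ (∀ j, (A j).eval z ≠ 0 ∧ (B j).eval z ≠ 0) ∧ ∃ l : Fin k → ℂ,
        (∀ j, Complex.exp (l j) = (A j).eval z / (B j).eval z) ∧
        ∑ j, (m j : ℂ) * t * (l j + w j) ∈ Lt}.Infinite := by
  classical
  have hunit : ∀ F : Polynomial ℂ, IsUnit F → F.natDegree = 0 := fun F hF =>
    Polynomial.natDegree_eq_zero_of_isUnit hF
  have hP0 : P ≠ 0 := by
    rintro rfl
    exact hnc ⟨Polynomial.natDegree_zero, hunit Q (isCoprime_zero_left.1 hPQ)⟩
  have hQ0 : Q ≠ 0 := by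
    rintro rfl
    exact hnc ⟨hunit P (isCoprime_zero_right.1 hPQ), Polynomial.natDegree_zero⟩
  let F : ℕ → Polynomial ℂ := fun n => P - Polynomial.C (2 ^ n) * Q
  have hpow : Function.Injective (fun n : ℕ => (2 : ℂ) ^ n) := by
    intro x y hxy
    have h2 : ((2 ^ x : ℕ) : ℂ) = ((2 ^ y : ℕ) : ℂ) := by
      push_cast
      exact hxy
    exact Nat.pow_right_injective le_rfl (Nat.cast_injective h2)
  have hFc : {n : ℕ | (F n).natDegree = 0}.Finite := by
    refine Set.Subsingleton.finite ?_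
    intro x hx y hy
    by_contra hxy
    have hx' : (F x).natDegree = 0 := hx
    have hy' : (F y).natDegree = 0 := hy
    have h1 : (2 : ℂ) ^ y - 2 ^ x ≠ 0 := fun h => hxy (hpow (sub_eq_zero.1 h)).symm
    have h2 : F x - F y = Polynomial.C ((2 : ℂ) ^ y - 2 ^ x) * Q := by
      simp only [F, Polynomial.C_sub]
      ring
    have h3 : Q.natDegree = 0 := by
      rw [← Polynomial.natDegree_C_mul (p := Q) h1, ← h2]
      have := Polynomial.natDegree_sub_le (F x) (F y)
      omega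
    have h4 : P.natDegree = 0 := by
      have h5 : P = F x + Polynomial.C (2 ^ x) * Q := by
        simp only [F]
        ring
      have h6 := Polynomial.natDegree_add_le (F x) (Polynomial.C (2 ^ x) * Q)
      rw [← h5] at h6
      have h7 := Polynomial.natDegree_C_mul_le ((2 : ℂ) ^ x) Q
      omega
    exact hnc ⟨h4, h3⟩
  have hroot : ∀ n : ℕ, ∃ z : ℂ, (F n).natDegree ≠ 0 → (F n).eval z = 0 := by
    intro n
    by_cases h : (F n).natDegree = 0
    · exact ⟨0, fun h' => absurd h h'⟩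
    · obtain ⟨z, hz⟩ := IsAlgClosed.exists_root (F n) (fun hd => h
        (Polynomial.natDegree_eq_of_degree_eq_some hd))
      exact ⟨z, fun _ => hz⟩
  choose z hz using hroot
  let R : Finset ℂ := (P.roots.toFinset ∪ Q.roots.toFinset) ∪
    ((Finset.univ.biUnion fun j => (A j).roots.toFinset) ∪
      Finset.univ.biUnion fun j => (B j).roots.toFinset)
  have hRA : ∀ j a, a ∈ (A j).roots → a ∈ R := fun j a ha =>
    Finset.mem_union_right _ (Finset.mem_union_left _
      (Finset.mem_biUnion.2 ⟨j, Finset.mem_univ j, Multiset.mem_toFinset.2 ha⟩))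
  have hRB : ∀ j a, a ∈ (B j).roots → a ∈ R := fun j a ha =>
    Finset.mem_union_right _ (Finset.mem_union_right _
      (Finset.mem_biUnion.2 ⟨j, Finset.mem_univ j, Multiset.mem_toFinset.2 ha⟩))
  have hval : ∀ n, (F n).natDegree ≠ 0 → Q.eval (z n) ≠ 0 ∧ P.eval (z n) / Q.eval (z n) = 2 ^ n := by
    intro n hn
    have h1 := hz n hn
    simp only [F, Polynomial.eval_sub, Polynomial.eval_mul, Polynomial.eval_C] at h1
    have h2 : Q.eval (z n) ≠ 0 := by
      intro h0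
      rw [h0, mul_zero, sub_zero] at h1
      obtain ⟨a, b, hab⟩ := hPQ
      have h3 := congrArg (fun p : Polynomial ℂ => p.eval (z n)) hab
      simp only [Polynomial.eval_add, Polynomial.eval_mul, h0, h1, mul_zero, add_zero,
        Polynomial.eval_one] at h3
      exact zero_ne_one h3
    exact ⟨h2, by rw [div_eq_iff h2]; linear_combination h1⟩
  have hinf : {s : ℂ | (s ∈ DegLe K d ∧ ∀ a ∈ R, s ≠ a) ∧ ∃ n : ℤ,
      P.eval s / Q.eval s = 2 ^ n}.Infinite := by
    have h1 : {n : ℕ | (F n).natDegree ≠ 0}.Infinite := by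
      have h2 : {n : ℕ | (F n).natDegree ≠ 0} = {n : ℕ | (F n).natDegree = 0}ᶜ := rfl
      rw [h2]
      exact hFc.infinite_compl
    have h2 : (z '' {n : ℕ | (F n).natDegree ≠ 0}).Infinite := by
      refine h1.image ?_
      intro x hx y hy hxy
      apply hpow
      show (2 : ℂ) ^ x = 2 ^ y
      rw [← (hval x hx).2, ← (hval y hy).2, hxy]
    refine (h2.sdiff R.finite_toSet).mono ?_
    rintro _ ⟨⟨n, hn, rfl⟩, hnR⟩
    refine ⟨⟨⟨F n, ?_, ?_, fun i => ?_, hz n hn⟩, ?_⟩, n, ?_⟩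
    · intro h0
      apply hn
      rw [h0, Polynomial.natDegree_zero]
    · refine (Polynomial.natDegree_sub_le _ _).trans (max_le hPd ?_)
      exact (Polynomial.natDegree_C_mul_le _ _).trans hQd
    · simp only [F, Polynomial.coeff_sub, Polynomial.coeff_C_mul]
      exact K.sub_mem (hP i) (K.mul_mem (pow_mem (by exact_mod_cast natCast_mem K 2) n) (hQ i))
    · intro a ha he
      exact hnR (Finset.mem_coe.2 (he ▸ ha))
    · rw [zpow_natCast]
      exact (hval n hn).2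
  have hnz : ∀ s, (∀ a ∈ R, s ≠ a) → ∀ j, (A j).eval s ≠ 0 ∧ (B j).eval s ≠ 0 := by
    intro s hs j
    exact ⟨fun h => hs s (hRA j s ((Polynomial.mem_roots (hA0 j)).2 h)) rfl,
      fun h => hs s (hRB j s ((Polynomial.mem_roots (hB0 j)).2 h)) rfl⟩
  have hNex : ∀ s : ℂ, ∃ N : ℤ, (∃ N : ℤ, P.eval s / Q.eval s = 2 ^ N) →
      P.eval s / Q.eval s = 2 ^ N := by
    intro s
    by_cases h : ∃ N : ℤ, P.eval s / Q.eval s = 2 ^ N
    · obtain ⟨N, hN⟩ := h
      exact ⟨N, fun _ => hN⟩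
    · exact ⟨0, fun h' => absurd h' h⟩
  choose N hN using hNex
  have hlcP : P.leadingCoeff / Q.leadingCoeff ≠ 0 := div_ne_zero
    (Polynomial.leadingCoeff_ne_zero.2 hP0) (Polynomial.leadingCoeff_ne_zero.2 hQ0)
  obtain ⟨t, w, ht, hw⟩ := conv_core _ hinf (fun z j => (A j).eval z / (B j).eval z)
    (fun z hz j => div_ne_zero (hnz z hz.1.2 j).1 (hnz z hz.1.2 j).2) m hm
    ((∏ j, ((A j).leadingCoeff / (B j).leadingCoeff) ^ m j) /
      (P.leadingCoeff / Q.leadingCoeff) ^ r) 2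
    (div_ne_zero (Finset.prod_ne_zero_iff.2 fun j _ => zpow_ne_zero _ (div_ne_zero
      (Polynomial.leadingCoeff_ne_zero.2 (hA0 j)) (Polynomial.leadingCoeff_ne_zero.2 (hB0 j))))
      (zpow_ne_zero _ hlcP))
    (isAlgebraic_natCast 2) two_ne_zero (by norm_num) (fun s => N s * r) (fun s hs => by
      have e1 := eval_quot A B R hRA hRB m s hs.1.2
      have e2 := eval_quot (k := 1) (fun _ => P) (fun _ => Q) R
        (fun _ a ha => Finset.mem_union_left _ (Finset.mem_union_left _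
          (Multiset.mem_toFinset.2 ha)))
        (fun _ a ha => Finset.mem_union_left _ (Finset.mem_union_right _
          (Multiset.mem_toFinset.2 ha))) (fun _ => r) s hs.1.2
      simp only [Fin.prod_univ_one, Fin.sum_univ_one] at e2
      rw [hN s hs.2] at e2
      simp only [ho] at e1
      rw [e1, zpow_mul, e2]
      have := zpow_ne_zero r hlcP
      field_simp)
  refine ⟨t, w, ht, hw.mono ?_⟩
  rintro s ⟨hs, l, hl, hl2⟩
  exact ⟨hs.1.1, hnz s hs.1.2, l, hl, hl2⟩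

end Pool.Agent.H594.BD
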